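import Mathlib
import Pool.Agent.H977R3.PD.Main

/-!
# Tate classes on products of simple abelian varieties of distinct prime dimensions over finite
fields

Let `A i` be finitely many abelian varieties over a finite field of characteristic `p`, simple over
the algebraic closure and with commutative endomorphism algebras there; the dimensions `r i` are
odd primes, pairwise distinct, or `1`.  So the Frobenius element of `A i` is a number `π i` in a CM
field `K i` of degree `2 * r i` which is generated by every power of `π i`.  Suppose that

* no imaginary quadratic field is contained in two of the fields `K i`;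
* if `K i` contains an imaginary quadratic field `k`, the norm of `π i` to `k` has different
  valuations at the two places of `k` above `p` (`QuadraticSums`); for ordinary `A i` this holds,
  since a sum of an odd number of signs does not vanish.

Then on all products of powers of the `A i` all Tate classes, over all finite extensions, are linear
combinations of products of classes of divisors.  There is no condition on the Galois groups of the
fields `K i` and none on the slopes besides the second condition.  (Both conditions are necessary:
otherwise norms to the imaginary quadratic field give exotic Tate classes.)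

More generally `V i` may be (the dual of) the transcendental part of the cohomology in degree `w i`
of a smooth projective variety, `m i = a * w i`; then Tate classes in the tensor products are
combinations of products of Tate classes on `X i × X i`.

The proof.  Let `e` be the function of the slopes (minus the mean) on the `2 r` embeddings of `K i`
into the Galois closure.  An element of order a power of `r` permutes a half of the embeddings
cyclically.  If `c` is a function, orthogonal to all translates of `e`, the irreducibility of the
cyclotomic polynomial shows that `c` or all translates of `e` are constant on this half.  In the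
second case different conjugates of `π i` differ by a root of unity, against the assumption on the
powers; in the first case `c` is a sign character of the Galois group, which gives an imaginary
quadratic subfield over which the sum of `e` vanishes.  For different fields: `r i` is larger than
`r i'`, say, so an `r i`-Sylow subgroup acts trivially on the embeddings of `K i'`, and the fields
are independent unless they have a common imaginary quadratic subfield.
-/

namespace Pool.Agent.Results.MP_0fca13_ag.DistinctPrimeDimensions

open Module NumberField Pool.Agent.H485R3 Pool.Agent.H977R3.WN Pool.Agent.H977R3.PD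

/-- `φ` is a form in the variables `v k ∈ V (t k)` which is multiplied by `c ^ s`, `c ^ 2` the
product of the `p ^ m (t k)`, if `F ^ s` is applied to all variables. -/
theorem result (p : ℕ) [Fact p.Prime] {I : Type} [Fintype I] (K : I → Type)
    [∀ i, Field (K i)] [∀ i, NumberField (K i)] [∀ i, IsCMField (K i)]
    (r : I → ℕ) (hr : ∀ i, r i = 1 ∨ ((r i).Prime ∧ r i ≠ 2))
    (hdeg : ∀ i, finrank ℚ (K i) = 2 * r i)
    (hdistinct : ∀ i i', i ≠ i' → r i = r i' → r i = 1)
    (hquad : ∀ i i', i ≠ i' → NoCommonQuadratic (K i) (K i'))
    (m : I → ℕ) (π : ∀ i, K i) (hint : ∀ i, IsIntegral ℤ (π i))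
    (hweil : ∀ i, ∀ φ : K i →+* ℂ, ‖φ (π i)‖ ^ 2 = (p : ℝ) ^ m i)
    (hgen : ∀ i, ∀ N : ℕ, 0 < N → IntermediateField.adjoin ℚ {π i ^ N} = ⊤)
    (κ : I → ℚ) (hκ : ∀ i, κ i ≠ 0) (u : ∀ i, (K i →+* PadicAlgCl p) → ℤ)
    (hslope : ∀ i, ∀ τ : K i →+* PadicAlgCl p,
      2 * (- Real.logb p ‖τ (π i)‖) - m i = (κ i : ℝ) * u i τ)
    (hsum : ∀ i, QuadraticSums (u i))
    {Ω : Type*} [Field Ω] [IsAlgClosed Ω] [CharZero Ω]
    (V : I → Type*) [∀ i, AddCommGroup (V i)] [∀ i, Module Ω (V i)]
    [∀ i, FiniteDimensional Ω (V i)] (F : ∀ i, V i →ₗ[Ω] V i)
    (hF : ∀ i, Submodule.span Ω {v : V i | ∃ σ : K i →+* Ω, F i v = σ (π i) • v} = ⊤)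
    {n : ℕ} (t : Fin n → I) (s : ℕ) (hs : 0 < s) (c : Ω) (hc : c ^ 2 = ∏ l, (p : Ω) ^ m (t l))
    (φ : MultilinearMap Ω (fun l => V (t l)) Ω)
    (hφ : ∀ v : ∀ l, V (t l), φ (fun l => (F (t l) ^ s) (v l)) = c ^ s * φ v) :
    φ ∈ Submodule.span Ω {ψ | IsProductOfPairings V F (fun i => (p : Ω) ^ m i) t ψ} :=
  finite_prime p K m π hint hweil hgen κ hκ u hslope r hr hdeg hdistinct hquad hsum V F hF t s hs
    c hc φ hφ

end Pool.Agent.Results.MP_0fca13_ag.DistinctPrimeDimensions
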