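import Mathlib
import Pool.Agent.H194R3.Weil.Main

/-!
# Tate classes are generated by divisor classes and Weil classes

Let `A` be an abelian variety over the field with `p ^ m` elements, `V` its first cohomology group
(coefficients extended to an algebraically closed field), `F` the Frobenius.  Suppose that the
eigenvalues of `F` are conjugates of finitely many numbers `π i`, all powers of which generate a CM
field `K i` of degree `2 * n i` (that is, `A` is isogenous to a product of powers of absolutely
simple abelian varieties, with the fields `K i`), that the maximal real subfield of `K i` is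
pair-transitive (the automorphisms of the complex numbers act transitively on the unordered pairs
of its embeddings; no other condition on the Galois group of `K i`), and that `n i` is odd, or
`n i - 1` is prime, or the action is also transitive on the unordered triples (for example: the
Galois group of the real subfield is the symmetric or alternating group, of any degree).
Embeddings of `K i` and `K j`, for different `i` and `j`, are supposed to be flipped (there is no
such condition if there is only one field). The slopes are arbitrary.

Then every Tate class on `A` over any finite extension, in any degree, is a polynomial in Tate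
classes of degree two (over the ground field; classes of divisors by the theorem of Tate) and in
Weil classes of degree `n i`: these are products of eigenvectors of `F`, with the eigenvalues
`σ (π i)`, `σ` running exactly once through the extensions to `K i` of one embedding of an
imaginary quadratic subfield `ℚ(δ)`. They occur only if `π i` is of Weil type, and their Frobenius
eigenvalue is, up to a root of unity, the square root of `(p ^ m) ^ n i`.

The proof: the Gram matrix of the translates of the vector of slopes is, up to the diagonal, a
multiple of a regular two-graph on `n i` points. Under the above conditions this two-graph is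
trivial, so that the kernel of the Gram matrix is spanned by a vector of signs, which is
semi-invariant under the Galois group and hence comes from an imaginary quadratic subfield.
-/

set_option autoImplicit false

namespace Pool.Agent.Results.MP_0fca13_ag.DivisorAndWeilClasses

open Module NumberField Pool.Agent.H194R3.CM Pool.Agent.H194R3.Tate Pool.Agent.H194R3.Weil

theorem result (p : ℕ) [Fact p.Prime] {I : Type} [Finite I] (K : I → Type)
    [∀ i, Field (K i)] [∀ i, NumberField (K i)] [∀ i, IsCMField (K i)]
    (hpair : ∀ i, PairTransitive (maximalRealSubfield (K i)))
    (hdeg : ∀ i, Odd (finrank ℚ (maximalRealSubfield (K i))) ∨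
      (finrank ℚ (maximalRealSubfield (K i)) - 1).Prime ∨
        TripleTransitive (maximalRealSubfield (K i)))
    (hflip : ∀ x y : Σ i, (K i →+* ℂ), y.1 ≠ x.1 → Flipped x y)
    (m : ℕ) (π : ∀ i, K i) (hint : ∀ i, IsIntegral ℤ (π i))
    (hgen : ∀ i, ∀ s : ℕ, 0 < s → IntermediateField.adjoin ℚ {π i ^ s} = ⊤)
    (hweil : ∀ i, ∀ φ : K i →+* ℂ, ‖φ (π i)‖ ^ 2 = (p : ℝ) ^ m)
    {Ω : Type*} [Field Ω] [IsAlgClosed Ω] [CharZero Ω]
    {V : Type*} [AddCommGroup V] [Module Ω V] (F : V →ₗ[Ω] V)
    (hF : Submodule.span Ω {v : V | ∃ i, ∃ σ : K i →+* Ω, F v = σ (π i) • v} = ⊤)
    (r s : ℕ) (hs : 0 < s) (x : ExteriorAlgebra Ω V) (hx : x ∈ ⋀[Ω]^(2 * r) V)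
    (hFx : ExteriorAlgebra.map (F ^ s) x = (((p : Ω) ^ m) ^ r) ^ s • x) :
    x ∈ Algebra.adjoin Ω
      ({y : ExteriorAlgebra Ω V | y ∈ ⋀[Ω]^2 V ∧ ExteriorAlgebra.map F y = (p : Ω) ^ m • y} ∪
        {y | ∃ i, WeilSlopes p (π i) m ∧ y ∈ weilClasses (π i) F ∧
          y ∈ ⋀[Ω]^(finrank ℚ (maximalRealSubfield (K i))) V ∧ ∃ s' : ℕ, 0 < s' ∧
            ExteriorAlgebra.map (F ^ (2 * s')) y =
              (((p : Ω) ^ m) ^ finrank ℚ (maximalRealSubfield (K i))) ^ s' • y}) := by
  refine main p m π hint hgen (fun i φ => ?_) hpair hdeg hflip F hF r s hs x hx hFx
  rw [hweil i φ]
  push_cast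
  rfl

end Pool.Agent.Results.MP_0fca13_ag.DivisorAndWeilClasses
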