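import Mathlib
import Pool.Agent.H194R3.Tate.Flip

/-!
# Tate classes on products of varieties over finite fields: flipped embeddings, arbitrary slopes

Let `X i` be finitely many smooth projective varieties over the field with `p ^ a` elements,
`V i` the dual of the cohomology group of `X i` in degree `w i`, with coefficients extended to an
algebraically closed field, `F i` the transpose of the Frobenius, `m i = a * w i`; forms in
variables `v k ∈ V (t k)` are elements of the tensor product of the cohomology groups.  Suppose
that the eigenvalues of `F i` are conjugates of one number `π i`, which generates a CM field `K i`,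
and that some normalised slope of `π i` is not zero, that is, `V i` is not supersingular. There is
no other condition on the slopes and no condition on the degrees of the fields.

The only condition is that any two embeddings `x, y` of the fields `K i` in the field of complex
numbers, `y` different from `x` and its conjugate, are flipped: some automorphism of the field of
complex numbers fixes one of them and conjugates the other one (or moves `x` to `y` and `y` to the
conjugate of `x`).  This holds if the Galois group of the compositum is as large as possible, but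
also for much smaller groups: for example for one field `K` of degree `2 n` with pairs of
embeddings permuted by any group of degree `n`, if the Galois group contains, for any two pairs,
an element that is trivial on one pair and interchanges the other one.

Then every Tate class, over any finite extension, in any tensor product of these groups is a
linear combination of products of pairings `B (F x, F y) = q ^ (w i) B (x, y)`, that is, of Tate
classes on `X i × X i`.  For `w i = 1` these are classes of divisors by the theorem of Tate; if
`w i` is the dimension of `X i` and the eigenvalues of `F i` are distinct, they are given by the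
Poincare pairing and powers of the graph of Frobenius.
-/

set_option autoImplicit false

namespace Pool.Agent.Results.MP_0fca13_ag.FlippedWeilNumbers

open Module Pool.Agent.H485R3 Pool.Agent.H194R3.CM

/-- `φ` is a form in the variables `v k ∈ V (t k)` which is multiplied by `c ^ s`, `c ^ 2` the
product of the `p ^ m (t k)`, if `F ^ s` is applied to all variables. -/
theorem result (p : ℕ) [Fact p.Prime] {I : Type} [Finite I] (K : I → Type)
    [∀ i, Field (K i)] [∀ i, NumberField (K i)] [∀ i, NumberField.IsCMField (K i)]
    (hflip : ∀ x y : Σ i, (K i →+* ℂ), y ≠ x → y ≠ bar x → Flipped x y)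
    (m : I → ℕ) (π : ∀ i, K i) (hgen : ∀ i, IntermediateField.adjoin ℚ {π i} = ⊤)
    (hweil : ∀ i, ∀ φ : K i →+* ℂ, ‖φ (π i)‖ ^ 2 = (p : ℝ) ^ m i)
    (hslope : ∀ i, ∃ τ : K i →+* PadicAlgCl p, 2 * (- Real.logb p ‖τ (π i)‖) ≠ m i)
    {Ω : Type*} [Field Ω] [IsAlgClosed Ω] [CharZero Ω]
    (V : I → Type*) [∀ i, AddCommGroup (V i)] [∀ i, Module Ω (V i)]
    [∀ i, FiniteDimensional Ω (V i)] (F : ∀ i, V i →ₗ[Ω] V i)
    (hF : ∀ i, Submodule.span Ω {v : V i | ∃ σ : K i →+* Ω, F i v = σ (π i) • v} = ⊤)
    {n : ℕ} (t : Fin n → I) (s : ℕ) (hs : 0 < s) (c : Ω) (hc : c ^ 2 = ∏ l, (p : Ω) ^ m (t l))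
    (φ : MultilinearMap Ω (fun l => V (t l)) Ω)
    (hφ : ∀ v : ∀ l, V (t l), φ (fun l => (F (t l) ^ s) (v l)) = c ^ s * φ v) :
    φ ∈ Submodule.span Ω {ψ | IsProductOfPairings V F (fun i => (p : Ω) ^ m i) t ψ} := by
  have hq : ∀ i, (0 : ℚ) < (p : ℚ) ^ m i :=
    fun i => pow_pos (by exact_mod_cast (Fact.out : p.Prime).pos) _
  have hp1 : (1 : ℝ) < p := by exact_mod_cast (Fact.out : p.Prime).one_lt
  have hcast : ∀ i, (((p : ℚ) ^ m i : ℚ) : Ω) = (p : Ω) ^ m i := by
    intro i
    push_cast
    rfl
  have h1 : ∀ i, - Real.logb p ‖((((p : ℚ) ^ m i : ℚ)) : PadicAlgCl p)‖ = m i := by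
    intro i
    rw [Pool.Agent.H925R2.norm_pow_cast, Real.logb_inv, Real.logb_pow,
      Real.logb_self_eq_one hp1]
    ring
  have h2 : (fun i => (p : Ω) ^ m i) = fun i => (((p : ℚ) ^ m i : ℚ) : Ω) :=
    funext fun i => (hcast i).symm
  rw [h2]
  have hweil' : ∀ i, ∀ φ : K i →+* ℂ, ‖φ (π i)‖ ^ 2 = (((p : ℚ) ^ m i : ℚ) : ℝ) := by
    intro i φ
    rw [hweil i φ]
    push_cast
    rfl
  refine Pool.Agent.H194R3.Tate.multi_of_norel p (fun i => (p : ℚ) ^ m i) hq π hgen hweil'
    (fun _ => Pool.Agent.H194R3.Tate.norel_of_flip p _ hq π hweil' hflip fun i => ?_) V F hF t s hs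
    c (by rw [hc]; exact Finset.prod_congr rfl fun l _ => (hcast _).symm) φ hφ
  obtain ⟨τ, hτ⟩ := hslope i
  refine ⟨τ, ?_⟩
  rw [dev_eq_val, h1]
  refine mul_ne_zero (neg_ne_zero.2 (Real.log_pos hp1).ne') (sub_ne_zero.2 hτ)

end Pool.Agent.Results.MP_0fca13_ag.FlippedWeilNumbers
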