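import Mathlib
import Pool.Agent.H868R3.TateTwoMain

/-!
# Tate classes on products of varieties over finite fields: 2-power degree, odd slopes

Let `X i` be finitely many smooth projective varieties over the field with `p ^ a` elements,
`V i` the dual of the cohomology group of `X i` in degree `w i`, with coefficients extended to an
algebraically closed field, `F i` the transpose of the Frobenius, `m i = a * w i`; forms in
variables `v k ∈ V (t k)` are elements of the tensor product of the cohomology groups.  Suppose that the eigenvalues of `F i` are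
conjugates of one number `π i`, which generates a CM field `K i` of degree `2 ^ (k i + 1)`, that
no product of discriminants of the `K i` over a nonempty set of indices is a square, and that the
numbers `2 v (τ (π i)) - m i` (`τ` running through the `p`-adic embeddings of `K i`, so that
`v (τ (π i))` runs through the slopes) are of the form `κ i * odd` with `κ i ≠ 0` (for example: the
slopes are integers in the ordinary case, and then this holds for `w i` odd, `κ i = a`).

Then every Tate class, over any finite extension, in any tensor product of these groups is a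
linear combination of products of pairings `B (F x, F y) = q ^ (w i) B (x, y)`, that is, of Tate
classes on `X i × X i`.  For `w i = 1` these are classes of divisors by the theorem of Tate; if the
eigenvalues of `F i` are distinct they are given by the Poincare pairing and powers of the graph
of Frobenius.
-/

set_option autoImplicit false

namespace Pool.Agent.Results.MP_0fca13_ag.OddSlopesTwoPower

open Module Pool.Agent.H485R3

/-- `φ` is a form in the variables `v k ∈ V (t k)` which is multiplied by `c ^ s`, `c ^ 2` the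
product of the `p ^ m (t k)`, if `F ^ s` is applied to all variables. -/
theorem result (p : ℕ) [Fact p.Prime] {I : Type} [Finite I] (K : I → Type)
    [∀ i, Field (K i)] [∀ i, NumberField (K i)] [∀ i, NumberField.IsCMField (K i)]
    (k : I → ℕ) (hdeg : ∀ i, finrank ℚ (K i) = 2 ^ (k i + 1))
    (hdisc : ∀ S : Finset I, S.Nonempty → ¬ IsSquare (∏ i ∈ S, NumberField.discr (K i)))
    (m : I → ℕ) (π : ∀ i, K i) (hgen : ∀ i, IntermediateField.adjoin ℚ {π i} = ⊤)
    (hweil : ∀ i, ∀ φ : K i →+* ℂ, ‖φ (π i)‖ ^ 2 = (p : ℝ) ^ m i)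
    (κ : I → ℚ) (hκ : ∀ i, κ i ≠ 0) (o : ∀ i, (K i →+* PadicAlgCl p) → ℤ)
    (hodd : ∀ i τ, Odd (o i τ))
    (hslope : ∀ i, ∀ τ : K i →+* PadicAlgCl p,
      2 * (- Real.logb p ‖τ (π i)‖) - m i = (κ i : ℝ) * o i τ)
    {Ω : Type*} [Field Ω] [IsAlgClosed Ω] [CharZero Ω]
    (V : I → Type*) [∀ i, AddCommGroup (V i)] [∀ i, Module Ω (V i)]
    [∀ i, FiniteDimensional Ω (V i)] (F : ∀ i, V i →ₗ[Ω] V i)
    (hF : ∀ i, Submodule.span Ω {v : V i | ∃ σ : K i →+* Ω, F i v = σ (π i) • v} = ⊤)
    {n : ℕ} (t : Fin n → I) (s : ℕ) (hs : 0 < s) (c : Ω) (hc : c ^ 2 = ∏ l, (p : Ω) ^ m (t l))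
    (φ : MultilinearMap Ω (fun l => V (t l)) Ω)
    (hφ : ∀ v : ∀ l, V (t l), φ (fun l => (F (t l) ^ s) (v l)) = c ^ s * φ v) :
    φ ∈ Submodule.span Ω {ψ | IsProductOfPairings V F (fun i => (p : Ω) ^ m i) t ψ} := by
  have hq : ∀ i, (0 : ℚ) < (p : ℚ) ^ m i :=
    fun i => pow_pos (by exact_mod_cast (Fact.out : p.Prime).pos) _
  have hp1 : (1 : ℝ) < p := by exact_mod_cast (Fact.out : p.Prime).one_lt
  have hcast : ∀ i, (((p : ℚ) ^ m i : ℚ) : Ω) = (p : Ω) ^ m i := by
    intro i
    push_cast
    rfl
  have h1 : ∀ i, - Real.logb p ‖((((p : ℚ) ^ m i : ℚ)) : PadicAlgCl p)‖ = m i := by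
    intro i
    rw [Pool.Agent.H925R2.norm_pow_cast, Real.logb_inv, Real.logb_pow,
      Real.logb_self_eq_one hp1]
    ring
  have h2 : (fun i => (p : Ω) ^ m i) = fun i => (((p : ℚ) ^ m i : ℚ) : Ω) :=
    funext fun i => (hcast i).symm
  rw [h2]
  refine Pool.Agent.H868R3.TwoOdd.main p K k hdeg hdisc (fun i => (p : ℚ) ^ m i) hq π hgen
    (fun i φ => by rw [hweil i φ]; push_cast; rfl) κ hκ o hodd
    (fun i τ => by rw [h1]; exact hslope i τ) V F hF t s hs c
    (by rw [hc]; exact Finset.prod_congr rfl fun l _ => (hcast _).symm) φ hφ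

end Pool.Agent.Results.MP_0fca13_ag.OddSlopesTwoPower
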